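import Pool.Agent.helper95.PY2.Spec
import Pool.Agent.helper76.PY2.DIL

set_option autoImplicit false

open Finset

namespace Pool.Agent.PY2

theorem WTOT : WTOT_stmt := by
  intro p _ R hR hRp
  have h := DIL_orth p ((range R).map Nat.castEmbedding) (by
    intro ξ hξ η hη he
    simp only [Finset.mem_map, Finset.mem_range, Nat.castEmbedding_apply] at hξ hη
    obtain ⟨a, ha, rfl⟩ := hξ
    obtain ⟨b, hb, rfl⟩ := hη
    have h1 : ((a : ℕ) : ZMod p) = ((b : ℕ) : ZMod p) := by
      simpa using he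
    rw [ZMod.natCast_eq_natCast_iff'] at h1
    rw [Nat.mod_eq_of_lt (by omega), Nat.mod_eq_of_lt (by omega)] at h1
    rw [h1]) (fun _ => 1)
  have h2 : ∀ y : ZMod p, wf R y = 4 / (R : ℝ) ^ 2 *
      ‖∑ ξ ∈ (range R).map Nat.castEmbedding, (fun _ : ℤ => (1 : ℂ)) ξ *
        ps (((ξ : ℤ) : ZMod p) * y)‖ ^ 2 := by
    intro y
    unfold wf
    rw [Finset.sum_map]
    simp
  rw [Finset.sum_congr rfl fun y _ => h2 y, ← Finset.mul_sum, h]
  simp only [norm_one, one_pow, Finset.sum_const, Finset.card_map, Finset.card_range, nsmul_eq_mul,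
    mul_one]
  have h3 : (R : ℝ) ≠ 0 := by
    have : (1 : ℝ) ≤ R := by exact_mod_cast hR
    linarith
  field_simp

end Pool.Agent.PY2
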