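import Mathlib
import Pool.Agent.helper46.PY.M
import Pool.Agent.helper82.Weil.M

/-!
# Project py2 (MP_f6e9a2_nt): `A` in an arithmetic progression, `B` arbitrary, `|A||B| ≥ p^(1/2+ε)`

THEOREM (`FIN_stmt`): for `ε > 0` there are `δ > 0`, `p₀`: for primes `p > p₀`, `I = {c + n v : n < N} ⊆ F_p`
(`v ≠ 0`, `N < p`, `N ≥ p^ε`), EVERY `B ⊆ F_p` with `|B| ≥ p^ε`, `N |B| ≥ p^(1/2+ε)`, every `χ ≠ 1` and all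
`|β_b| ≤ 1`: `∑_{a ∈ I} |∑_{b ∈ B} β_b χ(a+b)| ≤ p^(-δ) N |B|`.

Idea: cells of length `L = N p^(-ε/4)`. Cells with few points of `B`: helper46's theorem (`CASEB`). Cells with many
points (`CASEA`): Cauchy in the cell gives `∑_{b,b'} |∑_{n<N} χ(n+b) conj χ(n+b')|`, no weights; with
`h = b' - b ∈ [1, L)` shift `n → n + 2 v h`: only the ONE point `x = (n+b)/h` appears. Collisions of the points `x`:
band limited majorants, divisor bound (`DIL`).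

Rows: file `Pool/Agent/<seat>/PY2/X.lean`, `import Pool.Agent.helper95.PY2.Spec`, `namespace Pool.Agent.PY2`,
`theorem X (h1 : Y_stmt) ... : X_stmt` (only the rows named after (from ...), in this order), auxiliary lemmas
prefixed `X_`. No double quotes, no convert / congr!.
-/

set_option autoImplicit false

open Finset

namespace Pool.Agent.PY2

/-- the standard additive character of `ZMod p` -/
noncomputable def ps {p : ℕ} [NeZero p] (x : ZMod p) : ℂ := ZMod.stdAddChar x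

/-- `|∑_{v=1}^V χ(2v+x) conj χ(2v+1+x)|` -/
noncomputable def Ph {p : ℕ} (χ : MulChar (ZMod p) ℂ) (V : ℕ) (x : ZMod p) : ℝ :=
  ‖∑ v ∈ Icc 1 V, χ (((2 * v : ℕ) : ZMod p) + x) * (starRingEnd ℂ) (χ (((2 * v + 1 : ℕ) : ZMod p) + x))‖

/-- `∑_{n<N} χ(n+b) conj χ(n+b')` -/
noncomputable def Gc {p : ℕ} (χ : MulChar (ZMod p) ℂ) (N : ℕ) (b b' : ZMod p) : ℂ :=
  ∑ n ∈ range N, χ ((n : ZMod p) + b) * (starRingEnd ℂ) (χ ((n : ZMod p) + b'))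

/-- the points of `B` in the cell `j` -/
def cl {p : ℕ} (B : Finset (ZMod p)) (L j : ℕ) : Finset (ZMod p) := B.filter fun b => b.val / L = j

/-- the ordered pairs of points of `B` in the cell `j` -/
def pr {p : ℕ} (B : Finset (ZMod p)) (L j : ℕ) : Finset (ZMod p × ZMod p) :=
  (cl B L j ×ˢ cl B L j).filter fun z => z.1.val < z.2.val

/-- the weighted number of representations `x = (n+b)/(b'-b)` -/
noncomputable def nu {p : ℕ} (B : Finset (ZMod p)) (N L : ℕ) (x : ZMod p) : ℝ :=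
  ∑ j ∈ range p, ((cl B L j).card : ℝ)⁻¹ * ∑ z ∈ pr B L j,
    (((range N).filter fun n : ℕ => ((n : ℕ) : ZMod p) + z.1 = x * (z.2 - z.1)).card : ℝ)

/-- the proportion of points of the cell `j` with another point of `B` in the cell at distance `h` -/
noncomputable def rho {p : ℕ} (B : Finset (ZMod p)) (L j h : ℕ) : ℝ :=
  ((cl B L j).card : ℝ)⁻¹ * (((pr B L j).filter fun z => z.2.val = z.1.val + h).card : ℝ)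

/-- Fejer majorant `4/R² |∑_{r<R} e(ry/p)|²` -/
noncomputable def wf {p : ℕ} [NeZero p] (R : ℕ) (y : ZMod p) : ℝ :=
  4 / (R : ℝ) ^ 2 * ‖∑ r ∈ range R, ps ((r : ZMod p) * y)‖ ^ 2

/-- `F_h(y) = ∑_j rho_j(h) w(y - jL)` -/
noncomputable def FF {p : ℕ} [NeZero p] (B : Finset (ZMod p)) (L R h : ℕ) (y : ZMod p) : ℝ :=
  ∑ j ∈ range (p / L + 1), rho B L j h * wf R (y - ((j * L : ℕ) : ZMod p))

/-- **MOM** (medium). `T = {2v : 1 ≤ v ≤ V}` (distinct mod `p`). Adapt `moment_one` (Pool/Agent/helper82/Weil/M.lean):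
expand `Ph^(2k)` over `(s,t) ∈ T^k × T^k`: the inner sum is `ZZ χ X Y` with `X = (s_1..s_k, t_1+1..t_k+1)`,
`Y = (t_1..t_k, s_1+1..s_k+1)` (`Fin (2k)` or `Fin (k+k)`, `Fin.append`). If `(s,t)` is `Nondeg` so is `(X,Y)` (an even residue
`2v` is never an odd residue `2v'+1` as `2V+1 < p`), so `ZZ_bound` gives `4k √p`; otherwise `ZZ_trivial` and
`card_degenerate`. -/
def MOM_stmt : Prop := ∀ (p : ℕ) [Fact p.Prime] (χ : MulChar (ZMod p) ℂ), χ ≠ 1 → ∀ k V : ℕ, 0 < k →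
  2 * V + 1 < p → ∑ x : ZMod p, Ph χ V x ^ (2 * k) ≤
    (k : ℝ) ^ (2 * k) * (V : ℝ) ^ k * p + (V : ℝ) ^ (2 * k) * (4 * k * Real.sqrt p)

/-- **SHF** (short). With `F(m) = χ(m+b) conj χ(m+b+h)`, `‖F‖ ≤ 1`: `‖∑_{n<N} F(n) - ∑_{n<N} F(n+2vh)‖ ≤ 4vh` (`Finset.sum_range`
shift, both differ by the terms `n < 2vh` and `N ≤ n < N + 2vh`; or trivial if `N < 2vh`), and
`F(n+2vh) = χ(2v+x) conj χ(2v+1+x)`, `x = (n+b)/h` (`|χ(h)| = 1`). Sum over `v ≤ V`. -/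
def SHF_stmt : Prop := ∀ (p : ℕ) [Fact p.Prime] (χ : MulChar (ZMod p) ℂ) (N V h : ℕ) (b : ZMod p), 1 ≤ h →
  h < p → (V : ℝ) * ‖Gc χ N b (b + (h : ZMod p))‖ ≤
    ∑ n ∈ range N, Ph χ V (((n : ZMod p) + b) / (h : ZMod p)) + 4 * h * (V : ℝ) ^ 2

/-- **CS** (medium). `B` is the disjoint union of the cells (`j < p`). Triangle inequality, Cauchy in each cell:
`S_j² ≤ N ∑_n |∑_{b ∈ B_j}|² ≤ N (N D_j + 2 ∑_{z ∈ pr} ‖Gc‖) =: N W_j`; then Cauchy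
`∑ S_j ≤ ∑ √D_j √(N W_j / D_j) ≤ √|B| √(N ∑ W_j / D_j)`, and `∑_j N D_j / D_j = N #{j : D_j ≠ 0} ≤ N |B| / E`. -/
def CS_stmt : Prop := ∀ (p : ℕ) [Fact p.Prime] (χ : MulChar (ZMod p) ℂ) (N L : ℕ) (E : ℝ)
  (B : Finset (ZMod p)) (β : ZMod p → ℂ), 1 ≤ L → 0 < E → (∀ b, ‖β b‖ ≤ 1) →
  (∀ j, cl B L j = ∅ ∨ E ≤ (cl B L j).card) →
  (∑ n ∈ range N, ‖∑ b ∈ B, β b * χ ((n : ZMod p) + b)‖) ^ 2 ≤
    (B.card : ℝ) * N * (N * B.card / E +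
      2 * ∑ j ∈ range p, ((cl B L j).card : ℝ)⁻¹ * ∑ z ∈ pr B L j, ‖Gc χ N z.1 z.2‖)

/-- **NUS** (medium, from SHF). For `z ∈ pr`, `h = z.2.val - z.1.val ∈ [1, L)`, `z.2 = z.1 + h`; sum of SHF with weights
`1/D_j`; `∑_n Ph((n+b)/h) = ∑_x #{n : n + b = x h} Ph(x)`; error `∑_j (1/D_j) (D_j²) 4 L V² ≤ 4 L V² |B|`
(`card pr ≤ D_j²`). (`L ≤ p`.) -/
def NUS_stmt : Prop := ∀ (p : ℕ) [Fact p.Prime] (χ : MulChar (ZMod p) ℂ) (N L V : ℕ) (B : Finset (ZMod p)),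
  1 ≤ L → L ≤ p →
  (V : ℝ) * ∑ j ∈ range p, ((cl B L j).card : ℝ)⁻¹ * ∑ z ∈ pr B L j, ‖Gc χ N z.1 z.2‖ ≤
    ∑ x : ZMod p, nu B N L x * Ph χ V x + 4 * L * (V : ℝ) ^ 2 * B.card

/-- **MASS** (short). `nu ≥ 0`, and for each pair `z` (`z.1 ≠ z.2`) `∑_x #{n : ...} = N`; `card pr ≤ D_j²`. -/
def MASS_stmt : Prop := ∀ (p : ℕ) [Fact p.Prime] (N L : ℕ) (B : Finset (ZMod p)), 1 ≤ L →
  (∀ x, 0 ≤ nu B N L x) ∧ ∑ x : ZMod p, nu B N L x ≤ N * B.card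

/-- **DIL** (medium). Near orthogonality of dilates. The frequencies `h φ` (integers, `|h φ| < L R`) are distinct mod
`p` if they are distinct integers (`2 L R < p`); put `A(ξ) = ∑_{h ∣ ξ} a h (ξ/h)`. Orthogonality of characters:
`∑_x |.|² = p ∑_ξ |A(ξ)|²`; `A(0) = ∑_h a h 0`; for `ξ ≠ 0` at most `T` pairs `(h, φ)` (`h ∣ |ξ|`), so
`|A(ξ)|² ≤ T ∑_{hφ = ξ} |a h φ|²`. -/
def DIL_stmt : Prop := ∀ (p : ℕ) [Fact p.Prime] (L R T : ℕ) (a : ℕ → ℤ → ℂ), 1 ≤ R → 2 * (L * R) < p →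
  (∀ n : ℕ, 1 ≤ n → n ≤ L * R → n.divisors.card ≤ T) →
  ∑ x : ZMod p, ‖∑ h ∈ Icc 1 L, ∑ f ∈ Ioo (-(R : ℤ)) R, a h f * ps ((h : ZMod p) * (f : ZMod p) * x)‖ ^ 2 ≤
    p * (‖∑ h ∈ Icc 1 L, a h 0‖ ^ 2 + T * ∑ h ∈ Icc 1 L, ∑ f ∈ Ioo (-(R : ℤ)) R, ‖a h f‖ ^ 2)

/-- **GEO** (short, medium). `y ≠ 0`, `m = y.valMinAbs`, `|m| ≤ p/2`: the sum is `(ps(Ry) - 1)/(ps y - 1)`, and
`‖ps y - 1‖ = 2 |sin(π m/p)| ≥ 4|m|/p` (`Real.mul_le_sin`). -/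
def GEO_stmt : Prop := ∀ (p : ℕ) [Fact p.Prime] (R : ℕ) (y : ZMod p),
  2 * |(y.valMinAbs : ℝ)| * ‖∑ r ∈ range R, ps ((r : ZMod p) * y)‖ ≤ p

/-- **LOW** (short). `Re ps(rn) = cos(2π rn/p) ≥ cos(π/3) = 1/2` for `r < R`. -/
def LOW_stmt : Prop := ∀ (p : ℕ) [Fact p.Prime] (R n : ℕ), 6 * (R * n) ≤ p →
  (R : ℝ) ≤ 2 * ‖∑ r ∈ range R, ps ((r : ZMod p) * (n : ZMod p))‖

/-- **SPC** (short, medium). The integers `jL`, `j ≤ p/L`, lie in `[0, p]` and have distance `≥ L`; the condition says that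
`y - jL` mod `p` lies in one of two arcs of length `L`; each arc is at most two intervals of integers (mod `p`) of
length `≤ L`, so contains at most 2 of the `jL` with `jL < p`, and at most one `j` has `jL = p`. -/
def SPC_stmt : Prop := ∀ (p : ℕ) [Fact p.Prime] (L m : ℕ) (y : ZMod p), 1 ≤ L →
  ((range (p / L + 1)).filter fun j => (y - ((j * L : ℕ) : ZMod p)).valMinAbs.natAbs / L = m).card ≤ 6

/-- **WSUM** (medium, from GEO, SPC). `wf R y ≤ 4` and `wf R y ≤ (p/R)²/|y|² ≤ (24N)²/|y|²`. By SPC the sum over `j` is at most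
`6 ∑_m min(4, (24N/(mL))²) ≤ 6 (4 (24N/L + 1) + 2 · 24N/L) ≤ 1000 N/L`. -/
def WSUM_stmt : Prop := ∀ (p : ℕ) [Fact p.Prime] (N L R : ℕ) (y : ZMod p), 1 ≤ L → L ≤ N → 1 ≤ R →
  p ≤ 24 * N * R →
  (L : ℝ) * ∑ j ∈ range (p / L + 1), wf R (y - ((j * L : ℕ) : ZMod p)) ≤ 1000 * N

/-- **WTOT** (short). Orthogonality: `∑_y |∑_{r<R} ps(ry)|² = p R` for `R ≤ p`. -/
def WTOT_stmt : Prop := ∀ (p : ℕ) [Fact p.Prime] (R : ℕ), 1 ≤ R → R ≤ p →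
  ∑ y : ZMod p, wf R y = 4 * p / R

/-- **NUB** (medium, from LOW). For `z ∈ pr` in cell `j` with `h = z.2.val - z.1.val` (`1 ≤ h < L`), if
`n + z.1 = x h` then `x h - jL = n + (z.1.val - jL)` is the class of an integer `< N + L ≤ 2N`, so `wf R (h x - jL) ≥ 1` by
LOW (`6 R 2N ≤ p`). For given `x` and `z` there is at most one `n < N` (`N ≤ p`). -/
def NUB_stmt : Prop := ∀ (p : ℕ) [Fact p.Prime] (N L R : ℕ) (B : Finset (ZMod p)) (x : ZMod p), 1 ≤ L → L ≤ N →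
  1 ≤ R → 12 * N * R ≤ p → nu B N L x ≤ ∑ h ∈ Icc 1 L, FF B L R h ((h : ZMod p) * x)

/-- **RHO** (short). For a given `h`, `z` is determined by `z.1`, so `rho ≤ 1`; `∑_h rho_j(h) = card (pr j) / D_j ≤ D_j` (0 if
`D_j = 0`). -/
def RHO_stmt : Prop := ∀ (p : ℕ) [Fact p.Prime] (L : ℕ) (B : Finset (ZMod p)), 1 ≤ L →
  (∀ j h, 0 ≤ rho B L j h ∧ rho B L j h ≤ 1) ∧
  ∑ h ∈ Icc 1 L, ∑ j ∈ range (p / L + 1), rho B L j h ≤ B.card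

/-- **PAR** (medium). `a f = 4/R² (R - |f|) ∑_j rho_j(h) ps(-f j L)`; expand the square in `wf`; Parseval (`2R ≤ p`). -/
def PAR_stmt : Prop := ∀ (p : ℕ) [Fact p.Prime] (L R h : ℕ) (B : Finset (ZMod p)), 1 ≤ L → 1 ≤ R → 2 * R ≤ p →
  ∃ a : ℤ → ℂ, (∀ y : ZMod p, ((FF B L R h y : ℝ) : ℂ) = ∑ f ∈ Ioo (-(R : ℤ)) R, a f * ps ((f : ZMod p) * y)) ∧
    a 0 = ((4 / R * ∑ j ∈ range (p / L + 1), rho B L j h : ℝ) : ℂ) ∧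
    (p : ℝ) * ∑ f ∈ Ioo (-(R : ℤ)) R, ‖a f‖ ^ 2 = ∑ y : ZMod p, FF B L R h y ^ 2

/-- **COL** (medium, from DIL, WSUM, WTOT, NUB, RHO, PAR, MASS). `R = p/(12N) ≥ 2`, `12NR ≤ p ≤ 24NR`, `2LR ≤ 2NR < p`. By NUB,
`nu(x) ≤ ∑_h F_h(hx)`, `0 ≤ nu`; DIL with the `a` of PAR: first term `p (4/R ∑∑rho)² ≤ 16 (24N)² |B|² / p`; second
`T ∑_h ∑_y F_h(y)²` and `F_h ≤ 1000 N/L` (WSUM, `rho ≤ 1`), `∑_y F_h = 4p/R ∑_j rho_j(h) ≤ 96 N ∑_j rho_j(h)`. -/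
def COL_stmt : Prop := ∀ (p : ℕ) [Fact p.Prime] (N L T : ℕ) (B : Finset (ZMod p)), 1 ≤ L → L ≤ N →
  24 * N ≤ p → (∀ n : ℕ, 1 ≤ n → n ≤ p → n.divisors.card ≤ T) →
  ∑ x : ZMod p, nu B N L x ^ 2 ≤
    10 ^ 4 * (N : ℝ) ^ 2 * (B.card : ℝ) ^ 2 / p + 10 ^ 5 * T * (N : ℝ) ^ 2 * B.card / L

/-- **HOL** (short). Hoelder: `∑ fg = ∑ f^((2k-2)/2k) f^(1/k) g`. Or Cauchy: `(∑fg)² ≤ (∑f)(∑ f g²)`, and
`(∑ f g²)^k ≤ (∑f)^(k-1) ...`. One way: `(∑ f g)^k ≤ (∑ f)^(k-1) ∑ f g^k` (`Real.inner_le_Lp_mul_Lq` or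
`inner_le_nnorm_mul_nnorm`; power mean `Real.pow_arith_mean_le_arith_mean_pow`), then Cauchy
`(∑ f g^k)² ≤ (∑ f²)(∑ g^(2k))`. -/
def HOL_stmt : Prop := ∀ (p : ℕ) [Fact p.Prime] (f g : ZMod p → ℝ) (k : ℕ), 0 < k → (∀ x, 0 ≤ f x) →
  (∀ x, 0 ≤ g x) →
  (∑ x, f x * g x) ^ (2 * k) ≤ (∑ x, f x) ^ (2 * k - 2) * (∑ x, f x ^ 2) * ∑ x, g x ^ (2 * k)

/-- **DIV** (short if found in a library file). The divisor bound. -/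
def DIV_stmt : Prop := ∀ η : ℝ, 0 < η → ∃ C : ℝ, 0 < C ∧ ∀ n : ℕ, 1 ≤ n → (n.divisors.card : ℝ) ≤ C * (n : ℝ) ^ η

/-- **CASEA** (long, numeric; from MOM, CS, NUS, MASS, COL, HOL, DIV). `E = p^(ε/16)`, `V = ⌊p^(ε/16)⌋`, `T = ⌊C p^(ε/16)⌋` (DIV with
`η = ε/16`), `k ≥ 8/ε + 8` so that `V^k ≥ √p` for large `p`. By MOM `∑ Ph^(2k) ≤ C_k √p V^(2k)`; by COL (`N/L ≤ p^(ε/4)`)
`∑ nu² ≤ 10^4 (N|B|)²/p + 10^5 C p^(5ε/16) N|B|`; HOL: `(∑ nu Ph)^(2k) ≤ (N|B|V)^(2k) C_k (10^4 p^(-1/2) +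
10^5 C p^(1/2+5ε/16) / (N|B|)) ≤ (N|B|V)^(2k) C' p^(-ε/2)`. So `∑ nu Ph ≤ N|B| V p^(-2δ')`, and CS, NUS:
`S² ≤ |B| N (N|B| p^(-ε/16) + 2 N|B| p^(-2δ') + 8 L V |B|)`, `L V ≤ 2 N p^(-3ε/16)`. -/
def CASEA_stmt : Prop := ∀ ε : ℝ, 0 < ε → ε ≤ 1 → ∃ δ : ℝ, 0 < δ ∧ ∃ p₀ : ℕ, ∀ (p : ℕ) [Fact p.Prime], p₀ < p →
  ∀ (N L : ℕ) (B : Finset (ZMod p)), (p : ℝ) ^ ε ≤ N → N ^ 2 ≤ p → (p : ℝ) ^ (1 / 2 + ε) ≤ N * B.card →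
  N * (p : ℝ) ^ (-(ε / 4)) ≤ L → (L : ℝ) ≤ 2 * N * (p : ℝ) ^ (-(ε / 4)) →
  (∀ j, cl B L j = ∅ ∨ (p : ℝ) ^ (ε / 16) ≤ (cl B L j).card) →
  ∀ χ : MulChar (ZMod p) ℂ, χ ≠ 1 → ∀ β : ZMod p → ℂ, (∀ b, ‖β b‖ ≤ 1) →
    ∑ n ∈ range N, ‖∑ b ∈ B, β b * χ ((n : ZMod p) + b)‖ ≤ (p : ℝ) ^ (-δ) * N * B.card

/-- **CASEB** (medium, long; from `Pool.Agent.helper46.PY.main3 : ∀ ε, 0 < ε → ...`, its statement is that of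
Pool/Agent/Results/MP_f6e9a2_nt/ProgressionBarrier.lean with the constants of Pool/Agent/helper46/PY/M.lean). Put
`m = 20 p^(5ε/16)`: an interval of `6N+1` consecutive residues meets at most `6N/L + 4 ≤ 10 p^(ε/4)` cells, so it has at most
`m` points of `B`. Cut `B` into pieces `B'` with `X ≤ |B'| ≤ 2X + 1`, `X = p^(1/2+5ε/16) / N ≤ |B|` (`X ≥ p^(5ε/16)`). Apply main3
with `ε/16`, `A = {0,..,N-1}`, `v = 1`, `T = N`, `P = {-N,..,2N}` (`A + ap 1 N ⊆ P`), `3N ≤ |P| = 3N + 1 ≤ p^δ N`: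
`mixed P B' ≤ m |P| |B'|²` (choose `x, b₁, b₃`; `b₂ ∈ B' ∩ (b₁ + [-3N, 3N])`, then `x', b₄` are determined); `|P| ≤ √p m`;
`|B'| |P| ≤ (2X+1) (3N+1) ≤ 12 X N = 12 p^(1/2+5ε/16) ≤ √p m`; `p^(1+ε/16) m ≤ N · 3N · X² = 3 p^(1+10ε/16)` for large `p`. Sum over
the pieces. -/
def CASEB_stmt : Prop := ∀ ε : ℝ, 0 < ε → ε ≤ 1 → ∃ δ : ℝ, 0 < δ ∧ ∃ p₀ : ℕ, ∀ (p : ℕ) [Fact p.Prime], p₀ < p →
  ∀ (N L : ℕ) (B : Finset (ZMod p)), (p : ℝ) ^ ε ≤ N → N ^ 2 ≤ p → (p : ℝ) ^ (1 / 2 + ε) ≤ N * B.card →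
  N * (p : ℝ) ^ (-(ε / 4)) ≤ L → (L : ℝ) ≤ 2 * N * (p : ℝ) ^ (-(ε / 4)) →
  (∀ j, ((cl B L j).card : ℝ) ≤ (p : ℝ) ^ (ε / 16)) →
  ∀ χ : MulChar (ZMod p) ℂ, χ ≠ 1 → ∀ β : ZMod p → ℂ, (∀ b, ‖β b‖ ≤ 1) →
    ∑ n ∈ range N, ‖∑ b ∈ B, β b * χ ((n : ZMod p) + b)‖ ≤ (p : ℝ) ^ (-δ) * N * B.card

/-- **INT** (medium; from CASEA, CASEB). All intervals of length `N ≤ √p`. `L = ⌈N p^(-ε'/4)⌉`, `ε' = ε/2`. `B` is the disjoint union of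
the points in cells with `≥ p^(ε'/16)` points and the rest (the cells of each part are cells of `B` or empty).
If a part has `≤ p^(-ε/2) |B|` points use the trivial bound `N |part|`; otherwise
`N |part| ≥ p^(1/2+ε')` and CASEA or CASEB applies. -/
def INT_stmt : Prop := ∀ ε : ℝ, 0 < ε → ε ≤ 1 → ∃ δ : ℝ, 0 < δ ∧ ∃ p₀ : ℕ, ∀ (p : ℕ) [Fact p.Prime], p₀ < p →
  ∀ (N : ℕ) (B : Finset (ZMod p)), (p : ℝ) ^ ε ≤ N → N ^ 2 ≤ p → (p : ℝ) ^ (1 / 2 + ε) ≤ N * B.card →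
  ∀ χ : MulChar (ZMod p) ℂ, χ ≠ 1 → ∀ β : ZMod p → ℂ, (∀ b, ‖β b‖ ≤ 1) →
    ∑ n ∈ range N, ‖∑ b ∈ B, β b * χ ((n : ZMod p) + b)‖ ≤ (p : ℝ) ^ (-δ) * N * B.card

/-- **FIN** (medium; from INT). The AP `I = {c + n v}`: `χ(c + n v + b) = χ(v) χ(n + (b + c)/v)`; replace `B` by
`(B + c)/v` (same cardinality) and `β` accordingly; `A ⊆ I` (drop terms). If `N² > p` cover `[0, N)` by `N/N₀ + 1`
blocks of length `N₀ = Nat.sqrt p` (translate `B`), `N₀ |B| ≥ p^(1/2+ε/4)` by `|B| ≥ p^ε` and `N₀ ≥ p^(ε/4)`; total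
`≤ 2 N p^(-δ) |B|`. If `N² ≤ p` use INT directly. (INT with `ε/4`; if `ε > 1` there is nothing to prove, `N < p`.) -/
def FIN_stmt : Prop := ∀ ε : ℝ, 0 < ε → ∃ δ : ℝ, 0 < δ ∧ ∃ p₀ : ℕ, ∀ (p : ℕ) [Fact p.Prime], p₀ < p →
  ∀ (A B : Finset (ZMod p)) (c v : ZMod p) (N : ℕ), v ≠ 0 → N < p →
  (∀ a ∈ A, ∃ n : ℕ, n < N ∧ a = c + (n : ZMod p) * v) → (p : ℝ) ^ ε ≤ N → (p : ℝ) ^ ε ≤ B.card →
  (p : ℝ) ^ (1 / 2 + ε) ≤ N * B.card →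
  ∀ χ : MulChar (ZMod p) ℂ, χ ≠ 1 → ∀ β : ZMod p → ℂ, (∀ b, ‖β b‖ ≤ 1) →
    ∑ a ∈ A, ‖∑ b ∈ B, β b * χ (a + b)‖ ≤ (p : ℝ) ^ (-δ) * N * B.card

/-- **FINM** (short, medium; from FIN). Moebius images of intervals. For `z = (an+b)/(cn+d)` and `w ∈ B` with `a + cw ≠ 0`:
`χ(z+w) = conj χ(cn+d) χ(a+cw) χ(n + w')`, `w' = (b+dw)/(a+cw)`, injective in `w`; at most one `w` is left out (it adds
`≤ N ≤ p^(-ε) N |B|`). Drop `conj χ(cn+d)` (modulus `≤ 1`), drop terms (`A` is covered by the `n < N`; choose one `n` for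
each `z`), apply FIN to `{n : n < N}`, `B' = {w'}`, `β' = β χ(a+cw)`. (`|B'| ≥ |B| - 1`: use `ε/2`.) Compare `RESX_core` in
Pool/Agent/helper68/FYX/RES.lean. -/
def FINM_stmt : Prop := ∀ ε : ℝ, 0 < ε → ∃ δ : ℝ, 0 < δ ∧ ∃ p₀ : ℕ, ∀ (p : ℕ) [Fact p.Prime], p₀ < p →
  ∀ (A B : Finset (ZMod p)) (a b c d : ZMod p) (N : ℕ), a * d - b * c ≠ 0 → N < p →
  (∀ z ∈ A, ∃ n : ℕ, n < N ∧ c * (n : ZMod p) + d ≠ 0 ∧ z = (a * (n : ZMod p) + b) / (c * (n : ZMod p) + d)) →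
  (p : ℝ) ^ ε ≤ N → (p : ℝ) ^ ε ≤ B.card → (p : ℝ) ^ (1 / 2 + ε) ≤ N * B.card →
  ∀ χ : MulChar (ZMod p) ℂ, χ ≠ 1 → ∀ β : ZMod p → ℂ, (∀ w, ‖β w‖ ≤ 1) →
    ∑ z ∈ A, ‖∑ w ∈ B, β w * χ (z + w)‖ ≤ (p : ℝ) ^ (-δ) * N * B.card

end Pool.Agent.PY2
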