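import Mathlib
import Pool.Agent.helper95.PY2.Spec

/-!
# Project pe (MP_f6e9a2_nt): the theorem py2 with the local additive energy of `B`

Stronger form of py2. For `x ∈ B` let `B_x = {y ∈ B : |y - x| < N}` (distance mod `p`), `E(B_x)` its additive energy.
THEOREM (`FE_stmt`): the bound of py2 holds if `N |B|² ≥ p^(1/2+ε) ∑_{x ∈ B} E(B_x)/|B_x|³`. As `E(B_x) ≤ |B_x|³` this
contains `N |B| ≥ p^(1/2+ε)`, and it goes below `|A||B| = p^(1/2)` if the additive energy of `B` in intervals of length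
`N` is small (example: `A ⊆ [0,N)` dense, `N = p^(1/4+ε)`, `B ⊆ [0,N)` a Sidon set with `p^(1/8+ε)` elements).

Rows: file `Pool/Agent/<seat>/PY2/X.lean`, `import Pool.Agent.helper95.PY2.Spec2`, `namespace Pool.Agent.PY2`,
`theorem X (h1 : Y_stmt) ... : X_stmt` (only the rows named after (from ...), in this order), auxiliary lemmas
prefixed `X_`. The names FE, INE, CAE, COE, RHE, LCE are rows of this file.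
-/

set_option autoImplicit false

open Finset

namespace Pool.Agent.PY2

/-- additive energy `#{(b₁,b₂,b₃,b₄) ∈ X⁴ : b₁ - b₂ = b₃ - b₄}` -/
def en {p : ℕ} (X : Finset (ZMod p)) : ℕ :=
  (((X ×ˢ X) ×ˢ (X ×ˢ X)).filter fun w => w.1.1 - w.1.2 = w.2.1 - w.2.2).card

/-- the points of `B` at distance `< N` from `x` -/
def nbh {p : ℕ} (B : Finset (ZMod p)) (N : ℕ) (x : ZMod p) : Finset (ZMod p) :=
  B.filter fun y => (y - x).valMinAbs.natAbs < N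

/-- the local energy `∑_{x ∈ B} E(B_x)/|B_x|³` -/
noncomputable def loc {p : ℕ} (B : Finset (ZMod p)) (N : ℕ) : ℝ :=
  ∑ x ∈ B, (en (nbh B N x) : ℝ) / ((nbh B N x).card : ℝ) ^ 3

/-- **COE** (medium; from DIL, WSUM, WTOT, NUB, RHO, PAR, MASS). Copy of COL (Pool/Agent/helper72/PY2/COL.lean). The only change: by
Cauchy `F_h(y)² ≤ (∑_j w(y-jL)) (∑_j rho_j(h)² w(y-jL)) ≤ (1000 N/L) ∑_j rho_j(h)² w(y-jL)` (`wf ≥ 0`), and sum over `y`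
with WTOT: `∑_y F_h(y)² ≤ (1000 N/L) (4p/R) ∑_j rho_j(h)²`, `p/R ≤ 24 N`. -/
def COE_stmt : Prop := ∀ (p : ℕ) [Fact p.Prime] (N L T : ℕ) (B : Finset (ZMod p)), 1 ≤ L → L ≤ N →
  24 * N ≤ p → (∀ n : ℕ, 1 ≤ n → n ≤ p → n.divisors.card ≤ T) →
  ∑ x : ZMod p, nu B N L x ^ 2 ≤
    10 ^ 4 * (N : ℝ) ^ 2 * (B.card : ℝ) ^ 2 / p +
      10 ^ 5 * T * (N : ℝ) ^ 2 / L * ∑ h ∈ Icc 1 L, ∑ j ∈ range (p / L + 1), rho B L j h ^ 2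

/-- **RHE** (short, medium). `rho_j(h) = r(h)/D_j`, `r(h) = #{(b, b') ∈ B_j² : b.val < b'.val, b'.val = b.val + h}`;
`∑_h r(h)² ≤ E(B_j)`: `r(h)²` is the number of pairs of such pairs, all these quadruples (over all `h ≥ 1`) are
distinct elements of the set counted by `en (cl B L j)`. For `D_j = 0` both sides are 0. Cells `j ≥ p` are empty. -/
def RHE_stmt : Prop := ∀ (p : ℕ) [Fact p.Prime] (L : ℕ) (B : Finset (ZMod p)), 1 ≤ L →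
  ∑ h ∈ Icc 1 L, ∑ j ∈ range (p / L + 1), rho B L j h ^ 2 ≤
    ∑ j ∈ range (p / L + 1), (en (cl B L j) : ℝ) / ((cl B L j).card : ℝ) ^ 2

/-- **CAE** (numeric; from MOM, CS, NUS, MASS, COE, RHE, HOL, DIV). Copy of CASEA (Pool/Agent/helper98/PY2/CASEA.lean): only the
hypothesis `N |B| ≥ p^(1/2+ε)` is replaced by the energy hypothesis, used in
`∑ nu² ≤ 10^4 (N|B|)²/p + 10^5 C p^(5ε/16) N 𝓔`, `𝓔 = ∑_j E(B_j)/D_j²`, `p^(1/2+5ε/16) N 𝓔 ≤ p^(-11ε/16) (N |B|)²`. -/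
def CAE_stmt : Prop := ∀ ε : ℝ, 0 < ε → ε ≤ 1 → ∃ δ : ℝ, 0 < δ ∧ ∃ p₀ : ℕ, ∀ (p : ℕ) [Fact p.Prime], p₀ < p →
  ∀ (N L : ℕ) (B : Finset (ZMod p)), (p : ℝ) ^ ε ≤ N → N ^ 2 ≤ p →
  (p : ℝ) ^ (1 / 2 + ε) * ∑ j ∈ range (p / L + 1), (en (cl B L j) : ℝ) / ((cl B L j).card : ℝ) ^ 2 ≤
    N * (B.card : ℝ) ^ 2 →
  N * (p : ℝ) ^ (-(ε / 4)) ≤ L → (L : ℝ) ≤ 2 * N * (p : ℝ) ^ (-(ε / 4)) →
  (∀ j, cl B L j = ∅ ∨ (p : ℝ) ^ (ε / 16) ≤ (cl B L j).card) →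
  ∀ χ : MulChar (ZMod p) ℂ, χ ≠ 1 → ∀ β : ZMod p → ℂ, (∀ b, ‖β b‖ ≤ 1) →
    ∑ n ∈ range N, ‖∑ b ∈ B, β b * χ ((n : ZMod p) + b)‖ ≤ (p : ℝ) ^ (-δ) * N * B.card

/-- **LCE** (medium; no hypotheses). From near sets to cells. Call a nonempty cell `j` bad if some `x ∈ B_j` has
`|B_x| > K |B_j|`; `B'` = the union of the good cells. (i) `B_x` (`x` in the cell `j`) is contained in the union of the at
most `2N/L + 5 ≤ 7 N/L` cells `i` containing a point at distance `< N` from `x`, so one of them has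
`D_i ≥ K D_j L/(7N)`; for given `i` at most `2N/L + 6 ≤ 8 N/L` cells `j` have `i` near them (distance mod `p`; the last cell may be
short). So `|B \ B'| ≤ ∑_{j bad} D_j ≤ (7N/L)(1/K) ∑_i D_i (8N/L) ≤ 56 (N/L)² |B|/K`. (Any constants which give `100`.)
(ii) `x ∈ B_j`: `B_j ⊆ B_x` (`L ≤ N`), so `en (B_j) ≤ en (B_x)`, and `D_j ≥ |B_x|/K` in a good cell:
`E(B_j)/D_j² = ∑_{x ∈ B_j} E(B_j)/D_j³ ≤ K³ ∑_{x ∈ B_j} E(B_x)/|B_x|³`. -/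
def LCE_stmt : Prop := ∀ (p : ℕ) [Fact p.Prime] (N L : ℕ) (K : ℝ) (B : Finset (ZMod p)), 1 ≤ L → L ≤ N →
  2 * N < p → 1 ≤ K → ∃ B' ⊆ B, (∀ j, cl B' L j = ∅ ∨ cl B' L j = cl B L j) ∧
    K * ((B \ B').card : ℝ) ≤ 100 * ((N : ℝ) / L) ^ 2 * B.card ∧
    ∑ j ∈ range (p / L + 1), (en (cl B' L j) : ℝ) / ((cl B' L j).card : ℝ) ^ 2 ≤ K ^ 3 * loc B N

/-- **INE** (medium; from CAE, CASEB, LCE). Intervals of length `N ≤ √p`. `e = ε/8`, `L = ⌈N p^(-e/4)⌉`, `K = p^e`, `B'` of LCE: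
`|B \ B'| ≤ 100 p^(e/2) |B|/p^e`, trivial bound for this part. `B' = B_d ∪ B_s`, `B_d` the points in cells with
`≥ p^(e/16)` points. If `|B_d| ≥ p^(-e/4) |B|`: CAE with `e` applies to `B_d` (its cells are cells of `B'` or empty):
`N |B_d|² ≥ p^(-e/2) p^(1/2+ε) loc ≥ p^(1/2+8e-e/2-3e) ∑ E/D²`. If `|B_s| ≥ p^(-e/4) |B|`: a nonempty cell of `B_s` has
`E(B_j)/D_j² ≥ 1 ≥ p^(-e/16) D_j` (`E ≥ D²`), so `K³ loc ≥ p^(-e/16) |B_s|`, `N |B|² ≥ p^(1/2+8e-3e-e/16) |B_s|`, so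
`N |B_s| ≥ p^(1/2+5e-e/16-e/2)` (as `|B_s|² ≥ p^(-e/2)|B|²`) and CASEB with `e` applies. Otherwise trivial bounds. -/
def INE_stmt : Prop := ∀ ε : ℝ, 0 < ε → ε ≤ 1 → ∃ δ : ℝ, 0 < δ ∧ ∃ p₀ : ℕ, ∀ (p : ℕ) [Fact p.Prime], p₀ < p →
  ∀ (N : ℕ) (B : Finset (ZMod p)), (p : ℝ) ^ ε ≤ N → N ^ 2 ≤ p →
  (p : ℝ) ^ (1 / 2 + ε) * loc B N ≤ N * (B.card : ℝ) ^ 2 →
  ∀ χ : MulChar (ZMod p) ℂ, χ ≠ 1 → ∀ β : ZMod p → ℂ, (∀ b, ‖β b‖ ≤ 1) →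
    ∑ n ∈ range N, ‖∑ b ∈ B, β b * χ ((n : ZMod p) + b)‖ ≤ (p : ℝ) ^ (-δ) * N * B.card

/-- **FE** (medium; from INE, FINM). All Moebius images of intervals, `B' = {(b+dw)/(a+cw) : w ∈ B, a + cw ≠ 0}`. As FINM
(Pool/Agent/helper75/PY2/FINM.lean): for `N² ≤ p` use INE for `B'` and `β' = β χ(a+cw)`; `|B'| ≥ |B| - 1` (injective), the point left
out adds `≤ N ≤ p^(-ε) N |B|`; the hypothesis for `B'`: `N |B'|² ≥ N |B|²/4` (`|B| ≥ p^ε ≥ 2`), `4 ≤ p^(ε/2)`. For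
`N² > p`: `N |B| ≥ p^(1/2+ε)`, use FINM. (If `ε > 1` nothing to prove, `N < p`.) -/
def FE_stmt : Prop := ∀ ε : ℝ, 0 < ε → ∃ δ : ℝ, 0 < δ ∧ ∃ p₀ : ℕ, ∀ (p : ℕ) [Fact p.Prime], p₀ < p →
  ∀ (A B : Finset (ZMod p)) (a b c d : ZMod p) (N : ℕ), a * d - b * c ≠ 0 → N < p →
  (∀ z ∈ A, ∃ n : ℕ, n < N ∧ c * (n : ZMod p) + d ≠ 0 ∧ z = (a * (n : ZMod p) + b) / (c * (n : ZMod p) + d)) →
  (p : ℝ) ^ ε ≤ N → (p : ℝ) ^ ε ≤ B.card →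
  (p : ℝ) ^ (1 / 2 + ε) * loc ((B.filter fun w => a + c * w ≠ 0).image fun w => (b + d * w) / (a + c * w)) N ≤
    N * (B.card : ℝ) ^ 2 →
  ∀ χ : MulChar (ZMod p) ℂ, χ ≠ 1 → ∀ β : ZMod p → ℂ, (∀ w, ‖β w‖ ≤ 1) →
    ∑ z ∈ A, ‖∑ w ∈ B, β w * χ (z + w)‖ ≤ (p : ℝ) ^ (-δ) * N * B.card

end Pool.Agent.PY2
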