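import Pool.Agent.helper95.PY2.Spec2

set_option autoImplicit false

open Finset

namespace Pool.Agent.PY2

theorem COE_wf_nonneg {p : ℕ} [NeZero p] (R : ℕ) (y : ZMod p) : 0 ≤ wf R y := by
  unfold wf
  positivity

theorem COE_FF_sq (h2 : WSUM_stmt) (h3 : WTOT_stmt) (p : ℕ) [Fact p.Prime] (N L R h : ℕ)
    (B : Finset (ZMod p)) (hL : 1 ≤ L) (hLN : L ≤ N) (hR : 1 ≤ R) (hRp : R ≤ p)
    (hp1 : p ≤ 24 * N * R) :
    ∑ y : ZMod p, FF B L R h y ^ 2 ≤
      1000 * N / L * (96 * N * ∑ j ∈ range (p / L + 1), rho B L j h ^ 2) := by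
  have hL0 : (0 : ℝ) < L := by exact_mod_cast hL
  have hR0 : (0 : ℝ) < R := by exact_mod_cast hR
  have e1 : ∀ y : ZMod p, FF B L R h y ^ 2 ≤ 1000 * N / L *
      ∑ j ∈ range (p / L + 1), rho B L j h ^ 2 * wf R (y - ((j * L : ℕ) : ZMod p)) := by
    intro y
    have hw := h2 p N L R y hL hLN hR hp1
    have hw' : ∑ j ∈ range (p / L + 1), wf R (y - ((j * L : ℕ) : ZMod p)) ≤ 1000 * N / L := by
      rw [le_div_iff₀ hL0]
      linarith
    have hcs : FF B L R h y ^ 2 ≤ (∑ j ∈ range (p / L + 1), wf R (y - ((j * L : ℕ) : ZMod p))) *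
        ∑ j ∈ range (p / L + 1), rho B L j h ^ 2 * wf R (y - ((j * L : ℕ) : ZMod p)) := by
      unfold FF
      apply Finset.sum_sq_le_sum_mul_sum_of_sq_eq_mul
      · intro j _
        exact COE_wf_nonneg _ _
      · intro j _
        exact mul_nonneg (sq_nonneg _) (COE_wf_nonneg _ _)
      · intro j _
        ring
    refine hcs.trans (mul_le_mul_of_nonneg_right hw' ?_)
    exact Finset.sum_nonneg fun j _ => mul_nonneg (sq_nonneg _) (COE_wf_nonneg _ _)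
  refine (Finset.sum_le_sum fun y _ => e1 y).trans ?_
  rw [← Finset.mul_sum]
  refine mul_le_mul_of_nonneg_left ?_ (by positivity)
  rw [Finset.sum_comm]
  have e2 : ∀ j ∈ range (p / L + 1), ∑ y : ZMod p, rho B L j h ^ 2 *
      wf R (y - ((j * L : ℕ) : ZMod p)) = rho B L j h ^ 2 * (4 * p / R) := by
    intro j _
    rw [← Finset.mul_sum]
    have e3 : ∑ y : ZMod p, wf R (y - ((j * L : ℕ) : ZMod p)) = ∑ y : ZMod p, wf R y :=
      Fintype.sum_equiv (Equiv.subRight ((j * L : ℕ) : ZMod p)) _ _ fun y => by simp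
    rw [e3, h3 p R hR hRp]
  rw [Finset.sum_congr rfl e2, ← Finset.sum_mul]
  have e4 : (4 * p / R : ℝ) ≤ 96 * N := by
    rw [div_le_iff₀ hR0]
    have : (p : ℝ) ≤ 24 * N * R := by exact_mod_cast hp1
    linarith
  have e5 : 0 ≤ ∑ j ∈ range (p / L + 1), rho B L j h ^ 2 :=
    Finset.sum_nonneg fun j _ => sq_nonneg _
  calc (∑ j ∈ range (p / L + 1), rho B L j h ^ 2) * (4 * p / R)
      ≤ (∑ j ∈ range (p / L + 1), rho B L j h ^ 2) * (96 * N) := mul_le_mul_of_nonneg_left e4 e5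
    _ = _ := by ring

theorem COE (h1 : DIL_stmt) (h2 : WSUM_stmt) (h3 : WTOT_stmt) (h4 : NUB_stmt) (h5 : RHO_stmt)
    (h6 : PAR_stmt) (h7 : MASS_stmt) : COE_stmt := by
  intro p hp N L T B hL hLN hNp hT
  have hN : 1 ≤ N := le_trans hL hLN
  obtain ⟨R, hRdef⟩ : ∃ R, R = p / (12 * N) := ⟨_, rfl⟩
  have hR2 : 2 ≤ R := by
    rw [hRdef, Nat.le_div_iff_mul_le (by omega)]
    omega
  have hR1 : 1 ≤ R := by omega
  have hRle : 12 * N * R ≤ p := by
    rw [hRdef]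
    exact Nat.mul_div_le _ _
  have hRgt : p ≤ 24 * N * R := by
    have h := Nat.lt_mul_div_succ p (show 0 < 12 * N by omega)
    rw [← hRdef] at h
    have h' : 12 * N * (R + 1) ≤ 24 * N * R := by nlinarith
    exact (h.le).trans h'
  have hNR : N ≤ N * R := Nat.le_mul_of_pos_right N (by omega)
  have hRN : R ≤ N * R := Nat.le_mul_of_pos_left R (by omega)
  have hLRN : L * R ≤ N * R := Nat.mul_le_mul_right R hLN
  have e12 : 12 * N * R = 12 * (N * R) := by ring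
  rw [e12] at hRle
  have hRp : R ≤ p := by omega
  have h2R : 2 * R ≤ p := by omega
  have hLR : 2 * (L * R) < p := by omega
  have hp0 : 0 < p := by omega
  have hpR : (0 : ℝ) < p := by exact_mod_cast hp0
  have hR0 : (0 : ℝ) < R := by exact_mod_cast hR1
  have hL0 : (0 : ℝ) < L := by exact_mod_cast hL
  choose a ha1 ha2 ha3 using fun h => h6 p L R h B hL hR1 h2R
  have hdil := h1 p L R T a hR1 hLR (fun n hn1 hn2 => hT n hn1 (by omega))
  have hnu : ∑ x : ZMod p, nu B N L x ^ 2 ≤ ∑ x : ZMod p, ‖∑ h ∈ Icc 1 L,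
      ∑ f ∈ Ioo (-(R : ℤ)) R, a h f * ps ((h : ZMod p) * (f : ZMod p) * x)‖ ^ 2 := by
    refine Finset.sum_le_sum fun x _ => ?_
    have hx := h4 p N L R B x hL hLN hR1 (by rw [e12]; exact hRle)
    have hx0 := (h7 p N L B hL).1 x
    have hx1 : ((∑ h ∈ Icc 1 L, FF B L R h ((h : ZMod p) * x) : ℝ) : ℂ) = ∑ h ∈ Icc 1 L,
        ∑ f ∈ Ioo (-(R : ℤ)) R, a h f * ps ((h : ZMod p) * (f : ZMod p) * x) := by
      push_cast
      refine Finset.sum_congr rfl fun h _ => ?_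
      rw [ha1 h]
      refine Finset.sum_congr rfl fun f _ => ?_
      rw [show (f : ZMod p) * ((h : ZMod p) * x) = (h : ZMod p) * (f : ZMod p) * x by ring]
    rw [← hx1, Complex.norm_real, Real.norm_eq_abs, sq_abs]
    exact pow_le_pow_left₀ hx0 hx 2
  refine hnu.trans (hdil.trans ?_)
  have hfirst : (p : ℝ) * ‖∑ h ∈ Icc 1 L, a h 0‖ ^ 2 ≤
      10 ^ 4 * (N : ℝ) ^ 2 * (B.card : ℝ) ^ 2 / p := by
    have e1 : ∑ h ∈ Icc 1 L, a h 0 = ((4 / R * ∑ h ∈ Icc 1 L, ∑ j ∈ range (p / L + 1),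
        rho B L j h : ℝ) : ℂ) := by
      rw [Finset.sum_congr rfl fun h _ => ha2 h, Finset.mul_sum]
      push_cast
      rfl
    have e2 := (h5 p L B hL).2
    have e3 : 0 ≤ ∑ h ∈ Icc 1 L, ∑ j ∈ range (p / L + 1), rho B L j h :=
      Finset.sum_nonneg fun h _ => Finset.sum_nonneg fun j _ => ((h5 p L B hL).1 j h).1
    rw [e1, Complex.norm_real, Real.norm_eq_abs, sq_abs]
    have e4 : (4 / R : ℝ) ≤ 96 * N / p := by
      rw [div_le_div_iff₀ hR0 hpR]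
      have : (p : ℝ) ≤ 24 * N * R := by exact_mod_cast hRgt
      linarith
    have e5 : 4 / R * ∑ h ∈ Icc 1 L, ∑ j ∈ range (p / L + 1), rho B L j h ≤
        96 * N / p * B.card := by
      exact mul_le_mul e4 e2 e3 (by positivity)
    have e6 : (4 / R * ∑ h ∈ Icc 1 L, ∑ j ∈ range (p / L + 1), rho B L j h) ^ 2 ≤
        (96 * N / p * B.card) ^ 2 := pow_le_pow_left₀ (by positivity) e5 2
    calc (p : ℝ) * (4 / R * ∑ h ∈ Icc 1 L, ∑ j ∈ range (p / L + 1), rho B L j h) ^ 2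
        ≤ p * (96 * N / p * B.card) ^ 2 := mul_le_mul_of_nonneg_left e6 hpR.le
      _ = 9216 * ((N : ℝ) ^ 2 * (B.card : ℝ) ^ 2 / p) := by field_simp; ring
      _ ≤ 10 ^ 4 * ((N : ℝ) ^ 2 * (B.card : ℝ) ^ 2 / p) := by
          apply mul_le_mul_of_nonneg_right _ (by positivity)
          norm_num
      _ = _ := by ring
  have hsecond : (p : ℝ) * (T * ∑ h ∈ Icc 1 L, ∑ f ∈ Ioo (-(R : ℤ)) R, ‖a h f‖ ^ 2) ≤
      10 ^ 5 * T * (N : ℝ) ^ 2 / L * ∑ h ∈ Icc 1 L, ∑ j ∈ range (p / L + 1), rho B L j h ^ 2 := by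
    have e1 : (p : ℝ) * (T * ∑ h ∈ Icc 1 L, ∑ f ∈ Ioo (-(R : ℤ)) R, ‖a h f‖ ^ 2) =
        T * ∑ h ∈ Icc 1 L, ∑ y : ZMod p, FF B L R h y ^ 2 := by
      rw [mul_left_comm, Finset.mul_sum]
      congr 1
      exact Finset.sum_congr rfl fun h _ => ha3 h
    rw [e1]
    have e2 : ∑ h ∈ Icc 1 L, ∑ y : ZMod p, FF B L R h y ^ 2 ≤ ∑ h ∈ Icc 1 L,
        1000 * N / L * (96 * N * ∑ j ∈ range (p / L + 1), rho B L j h ^ 2) :=
      Finset.sum_le_sum fun h _ => COE_FF_sq h2 h3 p N L R h B hL hLN hR1 hRp hRgt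
    refine (mul_le_mul_of_nonneg_left e2 (Nat.cast_nonneg T)).trans ?_
    rw [← Finset.mul_sum, ← Finset.mul_sum]
    have e3 : 0 ≤ ∑ h ∈ Icc 1 L, ∑ j ∈ range (p / L + 1), rho B L j h ^ 2 :=
      Finset.sum_nonneg fun h _ => Finset.sum_nonneg fun j _ => sq_nonneg _
    generalize ∑ h ∈ Icc 1 L, ∑ j ∈ range (p / L + 1), rho B L j h ^ 2 = S at e3 ⊢
    have e4 : (T : ℝ) * (1000 * N / L * (96 * N * S)) = 96000 * (T * (N : ℝ) ^ 2 / L * S) := by
      ring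
    have e5 : 10 ^ 5 * T * (N : ℝ) ^ 2 / L * S = 100000 * (T * (N : ℝ) ^ 2 / L * S) := by ring
    rw [e4, e5]
    apply mul_le_mul_of_nonneg_right _ (by positivity)
    norm_num
  rw [mul_add]
  exact add_le_add hfirst hsecond

theorem COL_of_COE (h : COE_stmt) (h5 : RHO_stmt) : COL_stmt := by
  intro p hp N L T B hL hLN hNp hT
  refine (h p N L T B hL hLN hNp hT).trans ?_
  have hL0 : (0 : ℝ) < L := by exact_mod_cast hL
  have e1 : ∑ h ∈ Icc 1 L, ∑ j ∈ range (p / L + 1), rho B L j h ^ 2 ≤ B.card := by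
    refine le_trans (Finset.sum_le_sum fun h _ => Finset.sum_le_sum fun j _ => ?_) (h5 p L B hL).2
    obtain ⟨h0, h1⟩ := (h5 p L B hL).1 j h
    rw [sq]
    exact mul_le_of_le_one_left h0 h1
  have e2 : 10 ^ 5 * T * (N : ℝ) ^ 2 / L * ∑ h ∈ Icc 1 L, ∑ j ∈ range (p / L + 1),
      rho B L j h ^ 2 ≤ 10 ^ 5 * T * (N : ℝ) ^ 2 / L * B.card :=
    mul_le_mul_of_nonneg_left e1 (by positivity)
  have e3 : 10 ^ 5 * T * (N : ℝ) ^ 2 / L * B.card = 10 ^ 5 * T * (N : ℝ) ^ 2 * B.card / L := by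
    ring
  rw [e3] at e2
  linarith

end Pool.Agent.PY2
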