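import Pool.Agent.helper95.PY2.Spec
import Pool.Agent.helper18.PY2.MASS

set_option autoImplicit false

open Finset

namespace Pool.Agent.PY2

/-- number of `n < N` with `n + z.1 = x (z.2 - z.1)` -/
noncomputable def NUS_c {p : ℕ} (N : ℕ) (z : ZMod p × ZMod p) (x : ZMod p) : ℝ :=
  (((range N).filter fun n : ℕ => ((n : ℕ) : ZMod p) + z.1 = x * (z.2 - z.1)).card : ℝ)

theorem NUS_fib {p : ℕ} [Fact p.Prime] (N : ℕ) (z : ZMod p × ZMod p) (hz : z.2 - z.1 ≠ 0)
    (F : ZMod p → ℝ) :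
    ∑ n ∈ range N, F ((((n : ℕ) : ZMod p) + z.1) / (z.2 - z.1)) = ∑ x : ZMod p, NUS_c N z x * F x := by
  rw [← Finset.sum_fiberwise_of_maps_to (s := range N) (t := Finset.univ)
    (g := fun n : ℕ => (((n : ℕ) : ZMod p) + z.1) / (z.2 - z.1)) (fun _ _ => Finset.mem_univ _)]
  refine Finset.sum_congr rfl fun x _ => ?_
  unfold NUS_c
  rw [← nsmul_eq_mul, ← Finset.sum_const]
  have e : ((range N).filter fun n : ℕ => (((n : ℕ) : ZMod p) + z.1) / (z.2 - z.1) = x) =
      ((range N).filter fun n : ℕ => ((n : ℕ) : ZMod p) + z.1 = x * (z.2 - z.1)) := by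
    ext n
    simp only [mem_filter]
    rw [div_eq_iff hz]
  rw [e]
  refine Finset.sum_congr rfl fun n hn => ?_
  rw [mem_filter] at hn
  have h2 : (((n : ℕ) : ZMod p) + z.1) / (z.2 - z.1) = x := by
    rw [div_eq_iff hz]; exact hn.2
  rw [h2]

theorem NUS_card {p : ℕ} [Fact p.Prime] (B : Finset (ZMod p)) (L : ℕ) :
    ∑ j ∈ range p, ((cl B L j).card : ℝ) ≤ B.card := by
  have e3 : ∑ j ∈ range p, (cl B L j).card ≤ B.card := by
    unfold cl
    rw [← Finset.card_biUnion]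
    · exact Finset.card_le_card (Finset.biUnion_subset.mpr fun j _ => Finset.filter_subset _ _)
    · intro i _ j _ hij
      rw [Function.onFun, Finset.disjoint_filter]
      intro b _ h1 h2
      exact hij (h1.symm.trans h2)
  exact_mod_cast e3

theorem NUS (h1 : SHF_stmt) : NUS_stmt := by
  intro p _ χ N L V B hL hLp
  have key : ∀ j, ∀ z ∈ pr B L j, (V : ℝ) * ‖Gc χ N z.1 z.2‖ ≤
      ∑ x : ZMod p, NUS_c N z x * Ph χ V x + 4 * L * (V : ℝ) ^ 2 := by
    intro j z hz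
    unfold pr at hz
    rw [mem_filter, mem_product] at hz
    obtain ⟨⟨hz1, hz2⟩, hlt⟩ := hz
    unfold cl at hz1 hz2
    rw [mem_filter] at hz1 hz2
    obtain ⟨h, hh⟩ : ∃ h, z.2.val = z.1.val + h := ⟨z.2.val - z.1.val, by omega⟩
    have hh1 : 1 ≤ h := by omega
    have hhL : h < L := by
      have e1 : L * j ≤ z.1.val := by
        have := Nat.div_mul_le_self z.1.val L
        rw [hz1.2] at this
        rw [mul_comm]; exact this
      have e2 : z.2.val < L * (j + 1) := by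
        have := Nat.lt_mul_div_succ z.2.val (show 0 < L by omega)
        rw [hz2.2] at this
        exact this
      have e3 : L * (j + 1) = L * j + L := by ring
      omega
    have hhp : h < p := by omega
    have e : z.2 = z.1 + (h : ZMod p) := by
      have e1 : ((z.2.val : ℕ) : ZMod p) = z.2 := ZMod.natCast_zmod_val z.2
      have e2 : ((z.1.val : ℕ) : ZMod p) = z.1 := ZMod.natCast_zmod_val z.1
      rw [← e1, hh]
      push_cast
      rw [e2]
    have e' : z.2 - z.1 = (h : ZMod p) := by rw [e]; ring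
    have hne : z.2 - z.1 ≠ 0 := by
      rw [e']
      intro h0
      rw [ZMod.natCast_eq_zero_iff] at h0
      exact absurd (Nat.le_of_dvd (by omega) h0) (by omega)
    have h2 := h1 p χ N V h z.1 hh1 hhp
    rw [← e] at h2
    have h3 := NUS_fib N z hne (Ph χ V)
    rw [e'] at h3
    rw [h3] at h2
    refine h2.trans ?_
    have h4 : (h : ℝ) ≤ L := by exact_mod_cast hhL.le
    have h5 : 4 * (h : ℝ) * (V : ℝ) ^ 2 ≤ 4 * L * (V : ℝ) ^ 2 := by
      apply mul_le_mul_of_nonneg_right _ (by positivity)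
      linarith
    linarith
  have hA : (V : ℝ) * ∑ j ∈ range p, ((cl B L j).card : ℝ)⁻¹ * ∑ z ∈ pr B L j, ‖Gc χ N z.1 z.2‖ ≤
      ∑ j ∈ range p, ((cl B L j).card : ℝ)⁻¹ * ∑ z ∈ pr B L j,
        (∑ x : ZMod p, NUS_c N z x * Ph χ V x + 4 * L * (V : ℝ) ^ 2) := by
    rw [Finset.mul_sum]
    refine Finset.sum_le_sum fun j _ => ?_
    rw [show (V : ℝ) * (((cl B L j).card : ℝ)⁻¹ * ∑ z ∈ pr B L j, ‖Gc χ N z.1 z.2‖) =
      ((cl B L j).card : ℝ)⁻¹ * ((V : ℝ) * ∑ z ∈ pr B L j, ‖Gc χ N z.1 z.2‖) by ring]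
    refine mul_le_mul_of_nonneg_left ?_ (by positivity)
    rw [Finset.mul_sum]
    exact Finset.sum_le_sum fun z hz => key j z hz
  refine hA.trans ?_
  have hB : ∑ j ∈ range p, ((cl B L j).card : ℝ)⁻¹ * ∑ z ∈ pr B L j,
        (∑ x : ZMod p, NUS_c N z x * Ph χ V x + 4 * L * (V : ℝ) ^ 2) =
      ∑ x : ZMod p, nu B N L x * Ph χ V x +
        4 * L * (V : ℝ) ^ 2 * ∑ j ∈ range p, ((cl B L j).card : ℝ)⁻¹ * ((pr B L j).card : ℝ) := by
    have e1 : ∀ j ∈ range p, ((cl B L j).card : ℝ)⁻¹ * ∑ z ∈ pr B L j,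
        (∑ x : ZMod p, NUS_c N z x * Ph χ V x + 4 * L * (V : ℝ) ^ 2) =
        ((cl B L j).card : ℝ)⁻¹ * ∑ z ∈ pr B L j, ∑ x : ZMod p, NUS_c N z x * Ph χ V x +
        4 * L * (V : ℝ) ^ 2 * (((cl B L j).card : ℝ)⁻¹ * ((pr B L j).card : ℝ)) := by
      intro j _
      rw [Finset.sum_add_distrib, Finset.sum_const, nsmul_eq_mul]
      ring
    rw [Finset.sum_congr rfl e1, Finset.sum_add_distrib, ← Finset.mul_sum]
    congr 1
    have e2 : ∀ x : ZMod p, nu B N L x * Ph χ V x = ∑ j ∈ range p, ((cl B L j).card : ℝ)⁻¹ *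
        ∑ z ∈ pr B L j, NUS_c N z x * Ph χ V x := by
      intro x
      unfold nu NUS_c
      rw [Finset.sum_mul]
      refine Finset.sum_congr rfl fun j _ => ?_
      rw [mul_assoc, Finset.sum_mul]
    rw [Finset.sum_congr rfl fun x _ => e2 x, Finset.sum_comm]
    refine Finset.sum_congr rfl fun j _ => ?_
    rw [← Finset.mul_sum, Finset.sum_comm]
  rw [hB]
  have hC : ∑ j ∈ range p, ((cl B L j).card : ℝ)⁻¹ * ((pr B L j).card : ℝ) ≤ B.card :=
    (Finset.sum_le_sum fun j _ => MASS_pr B L j).trans (NUS_card B L)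
  have hD : 4 * (L : ℝ) * (V : ℝ) ^ 2 * ∑ j ∈ range p, ((cl B L j).card : ℝ)⁻¹ *
      ((pr B L j).card : ℝ) ≤ 4 * L * (V : ℝ) ^ 2 * B.card :=
    mul_le_mul_of_nonneg_left hC (by positivity)
  linarith

end Pool.Agent.PY2
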