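import Mathlib
import Pool.Agent.helper95.PY2.Spec
import Pool.Agent.helper95.PY2.COE
import Pool.Agent.helper21.PY2.MOM
import Pool.Agent.helper37.PY2.SHF
import Pool.Agent.helper94.PY2.CS
import Pool.Agent.helper95.PY2.NUS
import Pool.Agent.helper18.PY2.MASS
import Pool.Agent.helper76.PY2.DIL
import Pool.Agent.helper51.PY2.GEO
import Pool.Agent.helper36.PY2.LOW
import Pool.Agent.helper34.PY2.SPC
import Pool.Agent.helper29.PY2.WSUM
import Pool.Agent.helper95.PY2.WTOT
import Pool.Agent.helper23.PY2.NUB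
import Pool.Agent.helper28.PY2.RHO
import Pool.Agent.helper70.PY2.PAR
import Pool.Agent.helper92.PY2.HOL
import Pool.Agent.helper79.PY2.DIV
import Pool.Agent.helper98.PY2.CASEA
import Pool.Agent.helper65.PY2.CASEB
import Pool.Agent.helper83.PY2.INT
import Pool.Agent.helper82.PY2.FIN
import Pool.Agent.helper75.PY2.FINM

/-!
# py2: assembly
-/

set_option autoImplicit false

namespace Pool.Agent.PY2

theorem p_MOM : MOM_stmt := MOM

theorem p_SHF : SHF_stmt := SHF

theorem p_CS : CS_stmt := CS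

theorem p_NUS : NUS_stmt := NUS p_SHF

theorem p_MASS : MASS_stmt := MASS

theorem p_DIL : DIL_stmt := DIL

theorem p_GEO : GEO_stmt := GEO

theorem p_LOW : LOW_stmt := LOW

theorem p_SPC : SPC_stmt := SPC

theorem p_WSUM : WSUM_stmt := WSUM p_GEO p_SPC

theorem p_WTOT : WTOT_stmt := WTOT

theorem p_NUB : NUB_stmt := NUB p_LOW

theorem p_RHO : RHO_stmt := RHO

theorem p_PAR : PAR_stmt := PAR

theorem p_COE : COE_stmt := COE p_DIL p_WSUM p_WTOT p_NUB p_RHO p_PAR p_MASS

theorem p_COL : COL_stmt := COL_of_COE p_COE p_RHO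

theorem p_HOL : HOL_stmt := HOL

theorem p_DIV : DIV_stmt := DIV

theorem p_CASEA : CASEA_stmt := CASEA p_MOM p_CS p_NUS p_MASS p_COL p_HOL p_DIV

theorem p_CASEB : CASEB_stmt := CASEB

theorem p_INT : INT_stmt := INT p_CASEA p_CASEB

theorem p_FIN : FIN_stmt := FIN p_INT

theorem p_FINM : FINM_stmt := FINM p_FIN

end Pool.Agent.PY2
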