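import Pool.Agent.helper95.PY2.Spec2
import Pool.Agent.helper98.PY2.CASEA

/-! Row pe:CAE (adapted from helper98's CASEA). -/

set_option autoImplicit false

open Finset

namespace Pool.Agent.PY2

/-- the second moment of `nu` times `√p`, energy version -/
theorem CAE_two (P e C X N b L T s Q F : ℝ) (hP : 1 ≤ P) (he : 0 < e) (he1 : 8 * e ≤ 1 / 2)
    (hC : 0 < C) (hN : 0 ≤ N) (hF : 0 ≤ F) (hL : 0 < L) (hX : X = N * b)
    (hXl : P ^ (1 / 2 + 16 * e) * F ≤ N * b ^ 2) (hNL : N * P ^ (-(4 * e)) ≤ L)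
    (hT : T ≤ C * P ^ e) (hs : s = P ^ (1 / 2 : ℝ))
    (hQ : Q ≤ 10 ^ 4 * N ^ 2 * b ^ 2 / P + 10 ^ 5 * T * N ^ 2 / L * F) :
    Q * s ≤ X ^ 2 * ((10 ^ 4 + 10 ^ 5 * C) * P ^ (-(8 * e))) := by
  have hP0 : 0 < P := by linarith
  have hs0 : 0 < s := by rw [hs]; positivity
  have hNL2 : N ≤ L * P ^ (4 * e) := by
    have h1 : N * P ^ (-(4 * e)) * P ^ (4 * e) ≤ L * P ^ (4 * e) :=
      mul_le_mul_of_nonneg_right hNL (by positivity)
    rw [mul_assoc, ← Real.rpow_add hP0] at h1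
    have h2 : -(4 * e) + 4 * e = 0 := by ring
    rw [h2, Real.rpow_zero, mul_one] at h1
    exact h1
  have h5 : P ^ (5 * e) = P ^ e * P ^ (4 * e) := by
    rw [← Real.rpow_add hP0]
    congr 1
    ring
  have h1 : 10 ^ 5 * T * N ^ 2 / L * F ≤ 10 ^ 5 * C * P ^ (5 * e) * (N * F) := by
    have h2 : T * (N ^ 2 / L) ≤ (C * P ^ e) * (N * P ^ (4 * e)) := by
      have h3 : N ^ 2 / L ≤ N * P ^ (4 * e) := by
        rw [div_le_iff₀ hL]
        calc N ^ 2 = N * N := by ring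
          _ ≤ N * (L * P ^ (4 * e)) := mul_le_mul_of_nonneg_left hNL2 (by positivity)
          _ = N * P ^ (4 * e) * L := by ring
      have h4 : 0 ≤ N ^ 2 / L := by positivity
      calc T * (N ^ 2 / L) ≤ (C * P ^ e) * (N ^ 2 / L) :=
            mul_le_mul_of_nonneg_right hT h4
        _ ≤ (C * P ^ e) * (N * P ^ (4 * e)) := mul_le_mul_of_nonneg_left h3 (by positivity)
    calc 10 ^ 5 * T * N ^ 2 / L * F = 10 ^ 5 * F * (T * (N ^ 2 / L)) := by ring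
      _ ≤ 10 ^ 5 * F * ((C * P ^ e) * (N * P ^ (4 * e))) :=
          mul_le_mul_of_nonneg_left h2 (by positivity)
      _ = 10 ^ 5 * C * P ^ (5 * e) * (N * F) := by rw [h5]; ring
  have h6 : Q * s ≤ (10 ^ 4 * N ^ 2 * b ^ 2 / P + 10 ^ 5 * C * P ^ (5 * e) * (N * F)) * s := by
    apply mul_le_mul_of_nonneg_right _ hs0.le
    linarith
  have h7 : 10 ^ 4 * N ^ 2 * b ^ 2 / P * s ≤ X ^ 2 * (10 ^ 4 * P ^ (-(8 * e))) := by
    have h8 : s / P = P ^ (-(1 / 2) : ℝ) := by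
      rw [hs]
      nth_rewrite 2 [← Real.rpow_one P]
      rw [← Real.rpow_sub hP0]
      congr 1
      norm_num
    have h9 : P ^ (-(1 / 2) : ℝ) ≤ P ^ (-(8 * e)) :=
      Real.rpow_le_rpow_of_exponent_le hP (by linarith)
    calc 10 ^ 4 * N ^ 2 * b ^ 2 / P * s = X ^ 2 * (10 ^ 4 * (s / P)) := by rw [hX]; ring
      _ ≤ X ^ 2 * (10 ^ 4 * P ^ (-(8 * e))) := by
          apply mul_le_mul_of_nonneg_left _ (by positivity)
          apply mul_le_mul_of_nonneg_left _ (by norm_num)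
          rw [h8]
          exact h9
  have h10 : 10 ^ 5 * C * P ^ (5 * e) * (N * F) * s ≤ X ^ 2 * (10 ^ 5 * C * P ^ (-(8 * e))) := by
    have h12 : P ^ (5 * e) * s = P ^ (-(11 * e)) * P ^ (1 / 2 + 16 * e) := by
      rw [hs, ← Real.rpow_add hP0, ← Real.rpow_add hP0]
      congr 1
      ring
    have h13 : P ^ (-(11 * e)) ≤ P ^ (-(8 * e)) :=
      Real.rpow_le_rpow_of_exponent_le hP (by linarith)
    calc 10 ^ 5 * C * P ^ (5 * e) * (N * F) * s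
        = 10 ^ 5 * C * N * F * (P ^ (5 * e) * s) := by ring
      _ = 10 ^ 5 * C * N * P ^ (-(11 * e)) * (P ^ (1 / 2 + 16 * e) * F) := by rw [h12]; ring
      _ ≤ 10 ^ 5 * C * N * P ^ (-(11 * e)) * (N * b ^ 2) :=
          mul_le_mul_of_nonneg_left hXl (by positivity)
      _ = 10 ^ 5 * C * X ^ 2 * P ^ (-(11 * e)) := by rw [hX]; ring
      _ ≤ 10 ^ 5 * C * X ^ 2 * P ^ (-(8 * e)) :=
          mul_le_mul_of_nonneg_left h13 (by positivity)
      _ = X ^ 2 * (10 ^ 5 * C * P ^ (-(8 * e))) := by ring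
  calc Q * s ≤ (10 ^ 4 * N ^ 2 * b ^ 2 / P + 10 ^ 5 * C * P ^ (5 * e) * (N * F)) * s := h6
    _ = 10 ^ 4 * N ^ 2 * b ^ 2 / P * s + 10 ^ 5 * C * P ^ (5 * e) * (N * F) * s := by ring
    _ ≤ X ^ 2 * (10 ^ 4 * P ^ (-(8 * e))) + X ^ 2 * (10 ^ 5 * C * P ^ (-(8 * e))) :=
        add_le_add h7 h10
    _ = X ^ 2 * ((10 ^ 4 + 10 ^ 5 * C) * P ^ (-(8 * e))) := by ring

theorem CAE (h1 : MOM_stmt) (h2 : CS_stmt) (h3 : NUS_stmt) (h4 : MASS_stmt)
    (h5 : COE_stmt) (hR : RHE_stmt) (h6 : HOL_stmt) (h7 : DIV_stmt) : CAE_stmt := by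
  intro ε hε hε1
  obtain ⟨e, he⟩ : ∃ e : ℝ, e = ε / 16 := ⟨_, rfl⟩
  have he0 : 0 < e := by rw [he]; positivity
  obtain ⟨C, hC0, hC⟩ := h7 e he0
  obtain ⟨k, hk⟩ : ∃ k : ℕ, 16 / ε + 2 ≤ (k : ℝ) := exists_nat_ge _
  have hk16 : 0 < 16 / ε := by positivity
  have hk2R : (2 : ℝ) ≤ (k : ℝ) := by linarith
  have hk2 : 2 ≤ k := by exact_mod_cast hk2R
  have hk0R : (0 : ℝ) < (k : ℝ) := by linarith
  have hek : 1 ≤ e * k := by
    have h8 : e * (16 / ε) = 1 := by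
      rw [he]
      field_simp
    nlinarith
  obtain ⟨d, hd⟩ : ∃ d : ℝ, d = 2 * e / k := ⟨_, rfl⟩
  have hd0 : 0 < d := by rw [hd]; positivity
  have hde : d ≤ e := by
    rw [hd, div_le_iff₀ hk0R]
    nlinarith
  have hd2k : d * (2 * (k : ℝ)) = 4 * e := by
    rw [hd]
    field_simp
    ring
  obtain ⟨K, hK⟩ : ∃ K : ℝ, K = (k : ℝ) ^ (2 * k) + 4 * k := ⟨_, rfl⟩
  have hK0 : 0 ≤ K := by rw [hK]; positivity
  obtain ⟨p₁, hp₁⟩ := CASEA_big 2 (e / 2) (by positivity)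
  obtain ⟨p₂, hp₂⟩ := CASEA_big (K * (10 ^ 4 + 10 ^ 5 * C)) (4 * e) (by positivity)
  obtain ⟨p₃, hp₃⟩ := CASEA_big 19 (d / 2) (by positivity)
  refine ⟨d / 4, by positivity, p₁ + p₂ + p₃ + 576, ?_⟩
  intro p _ hp N L B hN hN2 hX hL1 hL2 hcl χ hχ β hβ
  have hb1 := hp₁ p (by omega)
  have hb2 := hp₂ p (by omega)
  have hb3 := hp₃ p (by omega)
  have hp576 : 576 < p := by omega
  obtain ⟨P, hPdef⟩ : ∃ P : ℝ, P = (p : ℝ) := ⟨_, rfl⟩
  rw [← hPdef] at hb1 hb2 hb3 hN hX hL1 hL2 hcl ⊢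
  have hP576 : (576 : ℝ) < P := by rw [hPdef]; exact_mod_cast hp576
  have hP1 : 1 ≤ P := by linarith
  have hP0 : 0 < P := by linarith
  have hε4 : ε / 4 = 4 * e := by rw [he]; ring
  have hε16 : ε = 16 * e := by rw [he]; ring
  rw [hε4] at hL1 hL2
  rw [hε16] at hX hN
  have hcl' : ∀ j, cl B L j = ∅ ∨ P ^ e ≤ ((cl B L j).card : ℝ) := by
    intro j
    have := hcl j
    rwa [← he] at this
  -- the size of V
  obtain ⟨V, hVdef⟩ : ∃ V : ℕ, V = ⌊P ^ e⌋₊ := ⟨_, rfl⟩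
  have hVle : (V : ℝ) ≤ P ^ e := by
    rw [hVdef]
    exact Nat.floor_le (by positivity)
  have hVlt : P ^ e < V + 1 := by
    rw [hVdef]
    exact Nat.lt_floor_add_one _
  have hyy : P ^ e = P ^ (e / 2) * P ^ (e / 2) := by
    rw [← Real.rpow_add hP0]
    congr 1
    ring
  have hVy : P ^ (e / 2) ≤ V := by nlinarith
  have hV0 : (0 : ℝ) < V := by linarith
  have hVk : P ^ (1 / 2 : ℝ) ≤ (V : ℝ) ^ k := by
    calc P ^ (1 / 2 : ℝ) ≤ P ^ (e / 2 * k) :=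
          Real.rpow_le_rpow_of_exponent_le hP1 (by linarith)
      _ = (P ^ (e / 2)) ^ k := by rw [Real.rpow_mul hP0.le, Real.rpow_natCast]
      _ ≤ (V : ℝ) ^ k := pow_le_pow_left₀ (by positivity) hVy k
  have hss : P = P ^ (1 / 2 : ℝ) * P ^ (1 / 2 : ℝ) := by
    rw [← Real.rpow_add hP0]
    norm_num
  have hs24 : 24 < P ^ (1 / 2 : ℝ) := by
    by_contra hcon
    rw [not_lt] at hcon
    have h8 : 0 < P ^ (1 / 2 : ℝ) := by positivity
    nlinarith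
  have he16 : e ≤ 1 / 16 := by linarith
  have hVs : (V : ℝ) ≤ P ^ (1 / 2 : ℝ) :=
    hVle.trans (Real.rpow_le_rpow_of_exponent_le hP1 (by linarith))
  have h2V : 2 * V + 1 < p := by
    have h8 : 2 * (V : ℝ) + 1 < P := by nlinarith
    rw [hPdef] at h8
    exact_mod_cast h8
  -- N and L
  have hNs : (N : ℝ) ≤ P ^ (1 / 2 : ℝ) := by
    have h8 : (N : ℝ) ^ 2 ≤ P := by
      rw [hPdef]
      exact_mod_cast hN2
    by_contra hcon
    rw [not_le] at hcon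
    have h9 : 0 < P ^ (1 / 2 : ℝ) := by positivity
    nlinarith
  have h24N : 24 * N ≤ p := by
    have h8 : 24 * (N : ℝ) ≤ P := by nlinarith [Nat.cast_nonneg (α := ℝ) N]
    rw [hPdef] at h8
    exact_mod_cast h8
  have hN0 : (0 : ℝ) < N := lt_of_lt_of_le (by positivity) hN
  have hL0 : (0 : ℝ) < L := lt_of_lt_of_le (by positivity) hL1
  have hL1' : 1 ≤ L := by
    have : 0 < L := by exact_mod_cast hL0
    omega
  have hLN : L ≤ N := by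
    have h8 : P ^ (-(4 * e)) ≤ 1 / 2 := by
      have h9 : P ^ (-(4 * e)) ≤ P ^ (-(e / 2)) :=
        Real.rpow_le_rpow_of_exponent_le hP1 (by linarith)
      have h10 : P ^ (-(e / 2)) = (P ^ (e / 2))⁻¹ := Real.rpow_neg hP0.le _
      have h11 : (P ^ (e / 2))⁻¹ ≤ 2⁻¹ := inv_anti₀ (by norm_num) hb1
      rw [h10] at h9
      linarith
    have h12 : (L : ℝ) ≤ N := by
      calc (L : ℝ) ≤ 2 * N * P ^ (-(4 * e)) := hL2
        _ ≤ 2 * N * (1 / 2) := mul_le_mul_of_nonneg_left h8 (by positivity)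
        _ = N := by ring
    exact_mod_cast h12
  have hLp : L ≤ p := by omega
  -- T
  obtain ⟨T, hTdef⟩ : ∃ T : ℕ, T = ⌊C * P ^ e⌋₊ := ⟨_, rfl⟩
  have hTle : (T : ℝ) ≤ C * P ^ e := by
    rw [hTdef]
    exact Nat.floor_le (by positivity)
  have hTdiv : ∀ n : ℕ, 1 ≤ n → n ≤ p → n.divisors.card ≤ T := by
    intro n hn1 hn2
    rw [hTdef]
    apply Nat.le_floor
    have h8 : (n : ℝ) ≤ P := by
      rw [hPdef]
      exact_mod_cast hn2
    calc (n.divisors.card : ℝ) ≤ C * (n : ℝ) ^ e := hC n hn1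
      _ ≤ C * P ^ e := by
          apply mul_le_mul_of_nonneg_left _ hC0.le
          exact Real.rpow_le_rpow (by positivity) h8 he0.le
  -- the inputs
  have hmom := h1 p χ hχ k V (by omega) h2V
  have hcs := h2 p χ N L (P ^ e) B β hL1' (by positivity) hβ hcl'
  have hnus := h3 p χ N L V B hL1' hLp
  obtain ⟨hnu0, hmass⟩ := h4 p N L B hL1'
  have hcol := h5 p N L T B hL1' hLN h24N hTdiv
  have hrhe := hR p L B hL1'
  obtain ⟨F, hFdef⟩ : ∃ F : ℝ, F = ∑ j ∈ range (p / L + 1),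
    (en (cl B L j) : ℝ) / ((cl B L j).card : ℝ) ^ 2 := ⟨_, rfl⟩
  have hF0 : 0 ≤ F := by
    rw [hFdef]
    exact sum_nonneg fun j _ => div_nonneg (Nat.cast_nonneg _) (sq_nonneg _)
  rw [← hFdef] at hX hrhe
  have hPh0 : ∀ x, 0 ≤ Ph χ V x := fun x => norm_nonneg _
  have hhol := h6 p (nu B N L) (Ph χ V) k (by omega) hnu0 hPh0
  rw [← hPdef] at hmom hcol
  have hsq : Real.sqrt P = P ^ (1 / 2 : ℝ) := Real.sqrt_eq_rpow P
  rw [hsq] at hmom
  have hmom' := CASEA_mom k V P (P ^ (1 / 2 : ℝ)) _ hV0.le (by positivity) hss hVk hmom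
  rw [← hK] at hmom'
  obtain ⟨X, hXdef⟩ : ∃ X : ℝ, X = (N : ℝ) * (B.card : ℝ) := ⟨_, rfl⟩
  rw [← hXdef] at hmass
  have hb0 : (0 : ℝ) ≤ (B.card : ℝ) := Nat.cast_nonneg _
  have hX0 : 0 ≤ X := by rw [hXdef]; exact mul_nonneg hN0.le hb0
  have hs0 : 0 ≤ P ^ (1 / 2 : ℝ) := by linarith
  have hcol' : ∑ x : ZMod p, nu B N L x ^ 2 ≤ 10 ^ 4 * (N : ℝ) ^ 2 * (B.card : ℝ) ^ 2 / P +
      10 ^ 5 * T * (N : ℝ) ^ 2 / L * F := by
    have hc0 : (0 : ℝ) ≤ 10 ^ 5 * T * (N : ℝ) ^ 2 / L := by positivity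
    have hc1 := mul_le_mul_of_nonneg_left hrhe hc0
    exact hcol.trans (add_le_add le_rfl hc1)
  have htwo := CAE_two P e C X N B.card L T (P ^ (1 / 2 : ℝ)) _ F hP1 he0 (by linarith) hC0
    hN0.le hF0 hL0 hXdef hX hL1 hTle rfl hcol'
  have hW := CASEA_hol k (by omega) P e C X V (P ^ (1 / 2 : ℝ)) _ _ _ _ K d hP1 hX0 hV0.le
    hs0 (sum_nonneg fun x _ => hnu0 x) (sum_nonneg fun x _ => sq_nonneg _) hK0 hC0
    (sum_nonneg fun x _ => mul_nonneg (hnu0 x) (hPh0 x)) hmass hmom' htwo hb2 hd2k hhol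
  exact CASEA_end P e X N B.card L V _ _ d _ hP1 he0 hde hd0 hN0.le hb0 hXdef hV0
    hVle hL2 hL0.le (sum_nonneg fun n _ => norm_nonneg _) hb3 hW hnus hcs

end Pool.Agent.PY2
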