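import Pool.Agent.helper95.PY2.Spec2

set_option autoImplicit false

open Finset

namespace Pool.Agent.PY2

theorem en_le {p : ℕ} (X : Finset (ZMod p)) : en X ≤ X.card ^ 3 := by
  unfold en
  have h1 : (((X ×ˢ X) ×ˢ (X ×ˢ X)).filter fun w => w.1.1 - w.1.2 = w.2.1 - w.2.2).card ≤
      ((X ×ˢ X) ×ˢ X).card := by
    refine Finset.card_le_card_of_injOn (fun w => (w.1, w.2.1)) ?_ ?_
    · intro w hw
      simp only [coe_filter, mem_product, Set.mem_setOf_eq] at hw
      simp only [coe_product, Set.mem_prod, mem_coe]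
      exact ⟨⟨hw.1.1.1, hw.1.1.2⟩, hw.1.2.1⟩
    · intro w hw w' hw' h
      simp only [coe_filter, mem_product, Set.mem_setOf_eq] at hw hw'
      simp only [Prod.mk.injEq] at h
      obtain ⟨h1, h2⟩ := h
      have h3 := hw.2
      have h4 := hw'.2
      rw [h1, h2, h4] at h3
      exact Prod.ext h1 (Prod.ext h2 (sub_right_injective h3).symm)
  refine h1.trans (le_of_eq ?_)
  rw [card_product, card_product]
  ring

theorem loc_le {p : ℕ} (B : Finset (ZMod p)) (N : ℕ) : loc B N ≤ B.card := by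
  unfold loc
  have h : ∀ x ∈ B, (en (nbh B N x) : ℝ) / ((nbh B N x).card : ℝ) ^ 3 ≤ 1 := by
    intro x _
    have h1 : (en (nbh B N x) : ℝ) ≤ ((nbh B N x).card : ℝ) ^ 3 := by
      exact_mod_cast en_le (nbh B N x)
    exact div_le_one_of_le₀ h1 (by positivity)
  refine (Finset.sum_le_sum h).trans ?_
  rw [sum_const, nsmul_eq_mul, mul_one]

end Pool.Agent.PY2
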