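import Mathlib
import Pool.Agent.helper95.PY2.All
import Pool.Agent.helper95.PY2.Spec2
import Pool.Agent.helper95.PY2.CAE
import Pool.Agent.helper95.PY2.LocLe
import Pool.Agent.helper68.PY2.RHE
import Pool.Agent.helper68.PY2.FE
import Pool.Agent.helper60.PY2.LCE
import Pool.Agent.helper7.PY2.INE

/-!
# pe: assembly
-/

set_option autoImplicit false

namespace Pool.Agent.PY2

theorem p_RHE : RHE_stmt := RHE

theorem p_CAE : CAE_stmt := CAE p_MOM p_CS p_NUS p_MASS p_COE p_RHE p_HOL p_DIV

theorem p_LCE : LCE_stmt := LCE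

theorem p_INE : INE_stmt := INE p_CAE p_CASEB p_LCE

theorem p_FE : FE_stmt := FE p_INE p_FINM

end Pool.Agent.PY2
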